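import Pool.Agent.Q165.TF.Cert

/-!
# MP_a6e7b1_co: the value of `T^7 E^7 F^6` is neither `1` nor `1*`

All definitions (games, negative, sum, outcome, equality of values, Toads and Frogs) are in
`Pool.Agent.Q165.TF.Basic`.  Left, moving first, wins in `G - 1`, and Left, moving second, wins in
`G - 1` as well, so Left, moving first, wins in `G - 1*`, where `G` is the position `T^7 E^7 F^6`.
-/

namespace Pool.Agent.Results.MP_a6e7b1_co.SevenToads

open Q165.TF

lemma shape_one : Shape 1 one.neg :=
  ⟨⟨fun x => x.elim⟩, fun _ => ⟨⟨fun x => x.elim⟩, ⟨fun x => x.elim⟩⟩⟩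

lemma shape_one_zero : Shape 1 (one.add zero).neg :=
  ⟨⟨fun x => x.elim (fun y => y.elim) (fun y => y.elim)⟩, fun b => by
    rcases b with _ | b
    · exact ⟨⟨fun x => x.elim (fun y => y.elim) (fun y => y.elim)⟩,
        ⟨fun x => x.elim (fun y => y.elim) (fun y => y.elim)⟩⟩
    · exact b.elim⟩

lemma len : (start 7).length ≤ 20 := by decide

/-- Left wins `G - 1` moving first. -/
lemma first : ((toGame (start 7)).add one.neg).LeftFirst :=
  (sound_trees R0 R1 L0 L1 cert1 cert2 cert3 cert4 (start 7) len _ shape_one).2 cert6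

/-- Left wins `G - 1` moving second. -/
lemma second : ¬ ((toGame (start 7)).add (one.add zero).neg).RightFirst :=
  (sound_trees R0 R1 L0 L1 cert1 cert2 cert3 cert4 (start 7) len _ shape_one_zero).1 cert5

lemma first_star : ((toGame (start 7)).add oneStar.neg).LeftFirst := by
  have h := second
  rw [toGame] at h ⊢
  exact ⟨Sum.inr (Sum.inr ()), h⟩

lemma second' : ¬ ((toGame (start 7)).add one.neg).RightFirst :=
  (sound_trees R0 R1 L0 L1 cert1 cert2 cert3 cert4 (start 7) len _ shape_one).1 cert5

/-- **Main result.** The value of `T^7 E^7 F^6` is neither `1` nor `1*` (and it is greater than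
`1`: Left wins the difference moving first and moving second); so it is not true that for every
`a ≥ 1` the value of `T^a E^a F^(a-1)` is `1` or `1*`. -/
theorem result :
    (¬ (toGame (start 7)).Eqv one ∧ ¬ (toGame (start 7)).Eqv oneStar) ∧
    (((toGame (start 7)).add one.neg).LeftFirst ∧
      ¬ ((toGame (start 7)).add one.neg).RightFirst) ∧
    ¬ (∀ a : ℕ, 1 ≤ a → (toGame (start a)).Eqv one ∨ (toGame (start a)).Eqv oneStar) := by
  have h1 : ¬ (toGame (start 7)).Eqv one := fun h => h.1 first
  have h2 : ¬ (toGame (start 7)).Eqv oneStar := fun h => h.1 first_star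
  refine ⟨⟨h1, h2⟩, ⟨first, second'⟩, fun h => ?_⟩
  rcases h 7 (by norm_num) with h | h
  · exact h1 h
  · exact h2 h

end Pool.Agent.Results.MP_a6e7b1_co.SevenToads
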